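import Pool.Agent.TH255.CX.Inst

/-!
# Coboundary expanders with permutation coefficients and bounded vertex degrees

The question asks for an integer `k`, a constant `λ > 0` and infinitely many pairwise non-isomorphic
connected finite polygonal complexes with all vertex degrees at most `k` and with both Cheeger
constants `h_0^B(X, Sym)` and `h_1^B(X, Sym)` at least `λ`.  The answer is yes with `k = 4` and
`λ = 1/12`.  All complexes below have as graph a chain of `m` triangles, consecutive triangles having
a common vertex.  Three versions are given.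
-/

set_option autoImplicit false

namespace Pool.Agent.Results.MP_d4a15d_co.BoundedVertexDegree

open Pool.Agent.TH255.CX

/-- Positive answer to Q1 with `k = 4`, `λ = 1/12`, in three versions.

(1) `μ_2` is the uniform distribution on the polygons, and all polygons are triangles (the same
triangle may be attached several times).

(2) `μ_2` is the uniform distribution on the polygons, and no two polygons are attached along the
same closed path.

(3) `μ_2` is some positive distribution, all polygons are triangles, and every edge lies on exactly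
one polygon. -/
theorem result :
    (∃ X : ℕ → PC,
      (∀ m, (X m).Connected) ∧
      (∀ m x, (X m).degree x ≤ 4) ∧
      (∀ m m', m ≠ m' → ¬ (X m).Iso (X m')) ∧
      (∀ m, 1 / 12 ≤ (X m).h0 ∧ 3 / 2 ≤ (X m).h1) ∧
      (∀ m, (X m).Uniform) ∧
      (∀ m p, (X m).per p = 3)) ∧
    (∃ X : ℕ → PC,
      (∀ m, (X m).Connected) ∧
      (∀ m x, (X m).degree x ≤ 4) ∧
      (∀ m m', m ≠ m' → ¬ (X m).Iso (X m')) ∧
      (∀ m, 1 / 12 ≤ (X m).h0 ∧ 3 / 2 ≤ (X m).h1) ∧
      (∀ m, (X m).Uniform) ∧
      (∀ m, (X m).Distinct)) ∧
    (∃ X : ℕ → PC,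
      (∀ m, (X m).Connected) ∧
      (∀ m x, (X m).degree x ≤ 4) ∧
      (∀ m m', m ≠ m' → ¬ (X m).Iso (X m')) ∧
      (∀ m, 1 / 12 ≤ (X m).h0 ∧ 3 / 2 ≤ (X m).h1) ∧
      (∀ m p, (X m).per p = 3) ∧
      (∀ m e, ∃! p, (X m).Lies e p)) := by
  have iso : ∀ (D : ∀ m, CD (m + 1)) (m m' : ℕ), m ≠ m' → ¬ (chain (D m)).Iso (chain (D m')) := by
    rintro D m m' hne ⟨fV, _⟩
    have h1 : Fintype.card (Fin (2 * (m + 1) + 1)) = Fintype.card (Fin (2 * (m' + 1) + 1)) :=
      Fintype.card_congr fV
    rw [Fintype.card_fin, Fintype.card_fin] at h1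
    omega
  refine ⟨⟨fun m => chain (rep m), fun m => chain_connected _, fun m x => chain_degree _ x,
    iso rep, rep_good, fun m p => rfl, fun m p => rfl⟩,
    ⟨fun m => chain (wnd m), fun m => chain_connected _, fun m x => chain_degree _ x,
    iso wnd, wnd_good, fun m p => rfl, wnd_distinct⟩,
    ⟨fun m => chain (geo m), fun m => chain_connected _, fun m x => chain_degree _ x,
    iso geo, geo_good, fun m p => rfl, fun m e => ?_⟩⟩
  refine ⟨(e.1 : Fin (m + 1)), ?_, ?_⟩
  · exact (lies_chain (geo m) e _).2 rfl
  · intro p hp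
    exact (lies_chain (geo m) e p).1 hp

end Pool.Agent.Results.MP_d4a15d_co.BoundedVertexDegree
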